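import Mathlib

/-!
# Termination of flips in the ℚ-Gorenstein category: uniruled varieties of large dimension suffice
-/

universe u

namespace Pool.Agent.Results.MP_a06248_ag.UniruledSuffice

/-- Projective `ℚ`-Gorenstein terminal varieties, their flips, and products with the projective
line. -/
structure Varieties where
  /-- the projective `ℚ`-Gorenstein terminal varieties -/
  Obj : Type u
  /-- the dimension -/
  dim : Obj → ℕ
  /-- the variety is uniruled -/
  Uniruled : Obj → Prop
  /-- `Flip X Y`: `Y` is the flip of the contraction of an extremal ray of `X` -/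
  Flip : Obj → Obj → Prop
  /-- the product with the projective line -/
  line : Obj → Obj
  dim_line : ∀ X, dim (line X) = dim X + 1
  uniruled_line : ∀ X, Uniruled (line X)
  flip_line : ∀ X Y, Flip X Y → Flip (line X) (line Y)

variable (T : Varieties.{u})

/-- Every sequence of flips starting from `X` is finite. -/
def Terminates (X : T.Obj) : Prop :=
  ¬ ∃ f : ℕ → T.Obj, f 0 = X ∧ ∀ i, T.Flip (f i) (f (i + 1))

lemma Terminates.of_line {X : T.Obj} (h : Terminates T (T.line X)) : Terminates T X := by
  rintro ⟨f, h0, hf⟩
  exact h ⟨fun i => T.line (f i), congrArg T.line h0, fun i => T.flip_line _ _ (hf i)⟩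

lemma exists_line (k : ℕ) : ∀ X : T.Obj, ∃ Y : T.Obj, T.Uniruled Y ∧ T.dim Y = T.dim X + (k + 1) ∧
    (Terminates T Y → Terminates T X) := by
  induction k with
  | zero => exact fun X => ⟨T.line X, T.uniruled_line X, T.dim_line X, fun h => h.of_line⟩
  | succ k ih =>
    intro X
    obtain ⟨Y, h1, h2, h3⟩ := ih X
    refine ⟨T.line Y, T.uniruled_line Y, ?_, fun h => h3 h.of_line⟩
    rw [T.dim_line, h2]
    ring

/-- Let `D` be an unbounded set of dimensions. All sequences of flips are finite if and only if those
starting from uniruled varieties whose dimension is in `D` are finite. Moreover termination for the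
uniruled varieties of dimension `n + 1` implies termination for all varieties of dimension `n`. -/
theorem result (D : Set ℕ) (hD : ∀ N : ℕ, ∃ n ∈ D, N ≤ n) :
    ((∀ X : T.Obj, Terminates T X) ↔
      ∀ X : T.Obj, T.Uniruled X → T.dim X ∈ D → Terminates T X) ∧
    ∀ n : ℕ, (∀ X : T.Obj, T.dim X = n + 1 → T.Uniruled X → Terminates T X) →
      ∀ X : T.Obj, T.dim X = n → Terminates T X := by
  refine ⟨⟨fun h X _ _ => h X, fun h X => ?_⟩, fun n h X hX => ?_⟩
  · obtain ⟨n, hn, hle⟩ := hD (T.dim X + 1)
    obtain ⟨Y, h1, h2, h3⟩ := exists_line T (n - T.dim X - 1) X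
    refine h3 (h Y h1 ?_)
    rw [h2]
    have : T.dim X + (n - T.dim X - 1 + 1) = n := by omega
    rw [this]
    exact hn
  · exact (h (T.line X) (by rw [T.dim_line, hX]) (T.uniruled_line X)).of_line

end Pool.Agent.Results.MP_a06248_ag.UniruledSuffice
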